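import Pool.Agent.H74.LI.Targets
import Pool.Agent.H61.GLH.CircleCount
import Pool.Agent.H61.GLH.Equiv

/-!
# GR: polynomial growth of a quotient without poles (module for MP_9f0eeb_nt)
helper94
-/

set_option autoImplicit false

open Complex MeasureTheory Set Metric

namespace Pool.Agent.H94.LI

open Pool.Agent.H74.LI Pool.Agent.H61.GLH

/-- powers with exponent `≤ c log M` are polynomial in `M` -/
theorem pow_le_rpow {a c M : ℝ} {n : ℕ} (ha : 0 < a) (hM : 2 ≤ M)
    (hn : (n : ℝ) ≤ c * Real.log M) : a ^ n ≤ M ^ (c * |Real.log a|) := by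
  have hM0 : 0 < M := by linarith
  have hlM : 0 ≤ Real.log M := Real.log_nonneg (by linarith)
  rw [← Real.rpow_natCast, Real.rpow_def_of_pos ha, Real.rpow_def_of_pos hM0]
  apply Real.exp_le_exp.mpr
  calc Real.log a * n ≤ |Real.log a| * n := by
        gcongr
        exact le_abs_self _
    _ ≤ |Real.log a| * (c * Real.log M) := by gcongr
    _ = Real.log M * (c * |Real.log a|) := by ring

theorem inv_pow_le_rpow {a c M : ℝ} {n : ℕ} (ha : 0 < a) (hM : 2 ≤ M)
    (hn : (n : ℝ) ≤ c * Real.log M) : (a ^ n)⁻¹ ≤ M ^ (c * |Real.log a|) := by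
  have h := pow_le_rpow (inv_pos.mpr ha) hM hn
  rwa [Real.log_inv, abs_neg, inv_pow] at h

theorem aux_quot {M x y c : ℝ} (hM0 : 0 < M) (hx : 0 ≤ x) (h : x * y ≤ M)
    (hy : M ^ (-c) ≤ y) : x ≤ M ^ (1 + c) := by
  have e4 : 0 < M ^ (-c) := Real.rpow_pos_of_pos hM0 _
  have e5 : x * M ^ (-c) ≤ M := (mul_le_mul_of_nonneg_left hy hx).trans h
  have e6 : x ≤ M / M ^ (-c) := by rwa [le_div_iff₀ e4]
  refine e6.trans (le_of_eq ?_)
  rw [Real.rpow_add hM0, Real.rpow_one, Real.rpow_neg hM0.le, div_inv_eq_mul]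

theorem growth : T_growth := by
  intro R₁ R₂ R₃ h1 h12 h23
  have h2 : 0 < R₂ := by linarith
  have h3 : 0 < R₃ := by linarith
  set c0 : ℝ := 3 / Real.log (R₃ / R₂) with hc0
  have hl32 : 0 < Real.log (R₃ / R₂) := Real.log_pos (by rw [lt_div_iff₀ h2]; linarith)
  have hc0p : 0 < c0 := by positivity
  set R' : ℝ := (R₁ + R₂) / 2 with hR'
  have hR'0 : 0 < R' := by rw [hR']; linarith
  have hR'2 : R' < R₂ := by rw [hR']; linarith
  have hR'1 : R₁ < R' := by rw [hR']; linarith
  set s0 : ℝ := (R₂ - R₁) / 2 with hs0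
  have hs0p : 0 < s0 := by rw [hs0]; linarith
  set c1 : ℝ := 1 + c0 * |Real.log (R₃ - R₂)| with hc1
  set c2 : ℝ := 2 + c0 * |Real.log R₂| with hc2
  have hc1p : 1 ≤ c1 := by rw [hc1]; have := abs_nonneg (Real.log (R₃ - R₂)); nlinarith
  have hc2p : 2 ≤ c2 := by rw [hc2]; have := abs_nonneg (Real.log R₂); nlinarith
  set c3 : ℝ := 2 * R' / (R₂ - R') with hc3
  have hc3p : 0 ≤ c3 := by
    rw [hc3]
    have : 0 < R₂ - R' := by linarith
    positivity
  set c4 : ℝ := c2 + c3 * (c1 + c2) with hc4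
  have hc4p : 0 ≤ c4 := by rw [hc4]; positivity
  refine ⟨1 + c4 + c0 * |Real.log s0|, by positivity, ?_⟩
  intro p M U D N G hM hU hUc hball hD hN hG hDG hb hDp s hs
  have hM0 : 0 < M := by linarith
  have hlM : 0 < Real.log M := Real.log_pos (by linarith)
  have hDa : AnalyticOnNhd ℂ D U := hD.analyticOnNhd hU
  have hpU : p ∈ U := hball (mem_closedBall_self h3.le)
  have hDp0 : D p ≠ 0 := by
    intro h
    rw [h, norm_zero] at hDp
    linarith
  have hb23 : closedBall p R₂ ⊆ closedBall p R₃ := closedBall_subset_closedBall h23.le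
  -- the zeros
  obtain ⟨hfin, hord⟩ := finite_zeros (F := D) (c := p) (R := R₂)
    (hDa.mono (hb23.trans hball)) (mem_closedBall_self h2.le) hDp0
  set Z : Finset ℂ := hfin.toFinset with hZ
  have hZmem : ∀ w, w ∈ Z ↔ w ∈ closedBall p R₂ ∧ D w = 0 := by
    intro w
    rw [hZ, Set.Finite.mem_toFinset]
    rfl
  obtain ⟨D1, hD1, hfac, hD1Z⟩ := factor_finset hU Z hDa
    (fun w hw => hball (hb23 ((hZmem w).1 hw).1)) (fun w hw => hord w ((hZmem w).1 hw).1)
  set n : ℕ := ∑ z ∈ Z, analyticOrderNatAt D z with hn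
  set P : ℂ → ℂ := fun z => ∏ w ∈ Z, (z - w) ^ (analyticOrderNatAt D w) with hP
  have hfac' : ∀ z ∈ U, D z = P z * D1 z := hfac
  have hD1ne : ∀ z ∈ closedBall p R₂, D1 z ≠ 0 := by
    intro z hz h0
    by_cases hzZ : z ∈ Z
    · exact hD1Z z hzZ h0
    · apply hzZ
      rw [hZmem]
      refine ⟨hz, ?_⟩
      rw [hfac' z (hball (hb23 hz)), h0, mul_zero]
  -- number of zeros
  have hj := jensen_count hU hUc hD h2 h3 hball hDp0
    (fun z hz => (hb z (sphere_subset_closedBall hz)).1) Z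
    (fun z hz => ⟨hball (hb23 ((hZmem z).1 hz).1), by
      have := ((hZmem z).1 hz).1
      rwa [mem_closedBall, dist_eq_norm] at this⟩)
  rw [← hn] at hj
  have hnM : (n : ℝ) ≤ c0 * Real.log M := by
    have h4 : (R₃ / R₂) ^ n ≤ M ^ (3 : ℕ) := by
      rw [div_pow, div_le_iff₀ (by positivity)]
      have h5 : (1 / 4 : ℝ) * R₃ ^ n ≤ M * R₂ ^ n := by
        refine le_trans ?_ hj
        gcongr
      have h6 : (4 : ℝ) ≤ M ^ 2 := by nlinarith
      calc R₃ ^ n = 4 * ((1 / 4 : ℝ) * R₃ ^ n) := by ring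
        _ ≤ 4 * (M * R₂ ^ n) := by gcongr
        _ ≤ M ^ 2 * (M * R₂ ^ n) := by gcongr
        _ = M ^ 3 * R₂ ^ n := by ring
    have h7 := Real.log_le_log (by positivity) h4
    rw [Real.log_pow, Real.log_pow] at h7
    rw [hc0, div_mul_eq_mul_div, le_div_iff₀ hl32]
    simpa using h7
  -- bounds for `P`
  have hPnorm : ∀ z, ‖P z‖ = ∏ w ∈ Z, ‖z - w‖ ^ (analyticOrderNatAt D w) := by
    intro z
    rw [hP]
    simp only [norm_prod, norm_pow]
  have hPlow : ∀ z ∈ sphere p R₃, (R₃ - R₂) ^ n ≤ ‖P z‖ := by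
    intro z hz
    rw [hPnorm, hn, ← Finset.prod_pow_eq_pow_sum]
    apply Finset.prod_le_prod
    · intro w _
      have : 0 < R₃ - R₂ := by linarith
      positivity
    · intro w hw
      have hw2 := ((hZmem w).1 hw).1
      rw [mem_closedBall, dist_eq_norm] at hw2
      rw [mem_sphere, dist_eq_norm] at hz
      have h8 : ‖z - p‖ ≤ ‖z - w‖ + ‖w - p‖ := by
        calc ‖z - p‖ = ‖(z - w) + (w - p)‖ := by ring_nf
          _ ≤ _ := norm_add_le _ _
      have : 0 < R₃ - R₂ := by linarith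
      gcongr
      linarith
  have hPup : ‖P p‖ ≤ R₂ ^ n := by
    rw [hPnorm, hn, ← Finset.prod_pow_eq_pow_sum]
    apply Finset.prod_le_prod
    · intro w _
      positivity
    · intro w hw
      have hw2 := ((hZmem w).1 hw).1
      rw [mem_closedBall, dist_eq_norm, norm_sub_rev] at hw2
      gcongr
  have hr32 : 0 < R₃ - R₂ := by linarith
  -- upper bound for `D1`
  have hD1up : ∀ z ∈ closedBall p R₃, ‖D1 z‖ ≤ M ^ c1 := by
    have hdc : DiffContOnCl ℂ D1 (ball p R₃) := by
      apply DifferentiableOn.diffContOnCl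
      rw [closure_ball p h3.ne']
      exact hD1.differentiableOn.mono hball
    intro z hz
    apply norm_le_of_forall_mem_frontier_norm_le isBounded_ball hdc ?_
      (by rwa [closure_ball p h3.ne'])
    intro w hw
    rw [frontier_ball p h3.ne'] at hw
    have hwb := sphere_subset_closedBall hw
    have h9 : ‖P w‖ * ‖D1 w‖ ≤ M := by
      rw [← norm_mul, ← hfac' w (hball hwb)]
      exact (hb w hwb).1
    have h10 : (R₃ - R₂) ^ n * ‖D1 w‖ ≤ M := by
      refine le_trans ?_ h9
      gcongr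
      exact hPlow w hw
    calc ‖D1 w‖ = ((R₃ - R₂) ^ n)⁻¹ * ((R₃ - R₂) ^ n * ‖D1 w‖) := by
          field_simp
      _ ≤ M ^ (c0 * |Real.log (R₃ - R₂)|) * M := by
          gcongr
          exact inv_pow_le_rpow hr32 hM hnM
      _ = M ^ c1 := by
          rw [hc1, Real.rpow_add hM0, Real.rpow_one]
          ring
  -- lower bound at the centre
  have hD1p : M ^ (-c2) ≤ ‖D1 p‖ := by
    have h11 : (1 / 4 : ℝ) ≤ R₂ ^ n * ‖D1 p‖ := by
      calc (1 / 4 : ℝ) ≤ ‖D p‖ := hDp
        _ = ‖P p‖ * ‖D1 p‖ := by rw [← norm_mul, ← hfac' p hpU]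
        _ ≤ _ := by gcongr
    have h12' : R₂ ^ n ≤ M ^ (c0 * |Real.log R₂|) := pow_le_rpow h2 hM hnM
    have h13 : (1 / 4 : ℝ) ≤ M ^ (c0 * |Real.log R₂|) * ‖D1 p‖ := by
      refine le_trans h11 ?_
      gcongr
    have h14 : M ^ (-(2 : ℝ)) ≤ 1 / 4 := by
      rw [Real.rpow_neg hM0.le, one_div]
      apply inv_anti₀ (by norm_num)
      rw [show (2 : ℝ) = ((2 : ℕ) : ℝ) by norm_num, Real.rpow_natCast]
      nlinarith
    calc M ^ (-c2) = (M ^ (c0 * |Real.log R₂|))⁻¹ * M ^ (-(2 : ℝ)) := by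
          rw [hc2, ← Real.rpow_neg hM0.le, ← Real.rpow_add hM0]
          ring_nf
      _ ≤ (M ^ (c0 * |Real.log R₂|))⁻¹ * (M ^ (c0 * |Real.log R₂|) * ‖D1 p‖) := by
          gcongr
          exact h14.trans h13
      _ = ‖D1 p‖ := by
          rw [← mul_assoc, inv_mul_cancel₀ (by positivity), one_mul]
  -- logarithm of `D1`
  obtain ⟨h, hhd, hhe⟩ := exists_log isOpen_ball (convex_ball p R₂) ⟨p, mem_ball_self h2⟩
    (g := D1) (hD1.differentiableOn.mono (ball_subset_closedBall.trans (hb23.trans hball)))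
    (fun z hz => hD1ne z (ball_subset_closedBall hz))
  have hLp : 0 < (c1 + c2) * Real.log M := by
    have : 0 < c1 + c2 := by linarith
    positivity
  have hmaps : ∀ z ∈ ball (0 : ℂ) R₂, p + z ∈ ball p R₂ := by
    intro z hz
    simpa [mem_ball, dist_eq_norm] using hz
  have hfd : DifferentiableOn ℂ (fun z => h (p + z) - h p) (ball 0 R₂) := by
    apply DifferentiableOn.sub_const
    exact hhd.comp ((differentiable_const p).add differentiable_id).differentiableOn hmaps
  have hre : ∀ z ∈ ball p R₂, Real.exp (h z).re = ‖D1 z‖ := by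
    intro z hz
    rw [← hhe z hz, Complex.norm_exp]
  have hfre : Set.MapsTo (fun z => h (p + z) - h p) (ball 0 R₂)
      {z | z.re ≤ (c1 + c2) * Real.log M} := by
    intro z hz
    have hz' := hmaps z hz
    simp only [Set.mem_ofPred_eq, Complex.sub_re]
    have e1 : (h (p + z)).re ≤ c1 * Real.log M := by
      rw [← Real.exp_le_exp, hre _ hz']
      refine (hD1up _ (hb23 (ball_subset_closedBall hz'))).trans ?_
      rw [Real.rpow_def_of_pos hM0, mul_comm]
    have e2 : -(c2 * Real.log M) ≤ (h p).re := by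
      rw [← Real.exp_le_exp, hre _ (mem_ball_self h2)]
      refine le_trans ?_ hD1p
      rw [Real.rpow_def_of_pos hM0]
      apply Real.exp_le_exp.mpr
      apply le_of_eq
      ring
    linarith
  -- lower bound for `D1`
  have hD1low : ∀ z ∈ closedBall p R', M ^ (-c4) ≤ ‖D1 z‖ := by
    intro z hz
    have hzn : ‖z - p‖ ≤ R' := by rwa [mem_closedBall, dist_eq_norm] at hz
    have hzb : z - p ∈ ball (0 : ℂ) R₂ := by
      rw [mem_ball_zero_iff]
      linarith
    have hzp : z ∈ ball p R₂ := by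
      rw [mem_ball, dist_eq_norm]
      linarith
    have hbc := borelCaratheodory_zero hLp hfd hfre h2 hzb (by simp)
    have e0 : p + (z - p) = z := by ring
    rw [e0] at hbc
    have hbc2 : ‖h z - h p‖ ≤ c3 * ((c1 + c2) * Real.log M) := by
      refine hbc.trans ?_
      rw [hc3, div_mul_eq_mul_div, div_le_div_iff₀ (by linarith) (by linarith)]
      have e5 : 0 < R₂ - R' := by linarith
      have e6 : R₂ - R' ≤ R₂ - ‖z - p‖ := by linarith
      calc 2 * ((c1 + c2) * Real.log M) * ‖z - p‖ * (R₂ - R')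
          ≤ 2 * ((c1 + c2) * Real.log M) * R' * (R₂ - ‖z - p‖) := by gcongr
        _ = 2 * R' * ((c1 + c2) * Real.log M) * (R₂ - ‖z - p‖) := by ring
    have e7 : (h p).re - c3 * ((c1 + c2) * Real.log M) ≤ (h z).re := by
      have := (abs_le.mp ((Complex.abs_re_le_norm (h z - h p)).trans hbc2)).1
      rw [Complex.sub_re] at this
      linarith
    have e8 : -(c2 * Real.log M) ≤ (h p).re := by
      rw [← Real.exp_le_exp, hre _ (mem_ball_self h2)]
      refine le_trans ?_ hD1p
      rw [Real.rpow_def_of_pos hM0]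
      apply Real.exp_le_exp.mpr
      apply le_of_eq
      ring
    rw [← hre z hzp, Real.rpow_def_of_pos hM0]
    apply Real.exp_le_exp.mpr
    rw [hc4]
    nlinarith
  -- bound for `P G`
  have hPG : ∀ z ∈ closedBall p R', ‖P z * G z‖ ≤ M ^ (1 + c4) := by
    intro z hz
    have hz3 : z ∈ closedBall p R₃ :=
      closedBall_subset_closedBall (by linarith) hz
    have hzU := hball hz3
    have e1 : P z * G z * D1 z = N z := by
      rw [← hDG z hzU, hfac' z hzU]
      ring
    have e2 : ‖P z * G z‖ * ‖D1 z‖ ≤ M := by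
      rw [← norm_mul, e1]
      exact (hb z hz3).2
    have e3 := hD1low z hz
    exact aux_quot hM0 (norm_nonneg _) e2 e3
  -- conclusion
  have hsn : ‖s - p‖ ≤ R₁ := by rwa [mem_closedBall, dist_eq_norm] at hs
  have hsub : closedBall s s0 ⊆ closedBall p R' := by
    intro z hz
    rw [mem_closedBall, dist_eq_norm] at hz ⊢
    calc ‖z - p‖ = ‖(z - s) + (s - p)‖ := by ring_nf
      _ ≤ ‖z - s‖ + ‖s - p‖ := norm_add_le _ _
      _ ≤ s0 + R₁ := by linarith
      _ = R' := by rw [hs0, hR']; ring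
  have hsubU : closedBall s s0 ⊆ U :=
    hsub.trans ((closedBall_subset_closedBall (by linarith)).trans hball)
  have hGdc : DiffContOnCl ℂ G (ball s s0) := by
    apply DifferentiableOn.diffContOnCl
    rw [closure_ball s hs0p.ne']
    exact hG.mono hsubU
  have hq := quotient_bound hs0p (f := fun z => P z * G z) hGdc Z
    (fun w => analyticOrderNatAt D w) (fun z _ => rfl)
    (fun z hz => hPG z (hsub (sphere_subset_closedBall hz)))
  rw [← hn] at hq
  calc ‖G s‖ = (s0 ^ n)⁻¹ * (‖G s‖ * s0 ^ n) := by field_simp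
    _ ≤ M ^ (c0 * |Real.log s0|) * M ^ (1 + c4) := by
        gcongr
        exact inv_pow_le_rpow hs0p hM hnM
    _ = M ^ (1 + c4 + c0 * |Real.log s0|) := by
        rw [← Real.rpow_add hM0]
        ring_nf

end Pool.Agent.H94.LI
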